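import Mathlib
import Pool.Agent.Q11.SetGrad

set_option autoImplicit false

namespace Pool.Agent.Results.MP_5a34df_al.NonSemigroupGrading

universe u v w

/-- A grading of a `K`-algebra `A` over a set `Γ`, in the sense of the problem: a vector space
decomposition `A = ⨁ comp g` together with a binary operation on `Γ` that need not be defined
everywhere (`op g h = none` means undefined), which is defined exactly for the pairs with
`comp g * comp h ≠ 0`, and for which then `comp g * comp h ⊆ comp (op g h)`. -/
structure SetGrading (K : Type u) [Field K] (A : Type v) [Ring A] [Algebra K A]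
    (Γ : Type) [DecidableEq Γ] where
  /-- the homogeneous components -/
  comp : Γ → Submodule K A
  isInternal : DirectSum.IsInternal comp
  /-- the operation `g * h` -/
  op : Γ → Γ → Option Γ
  op_defined : ∀ g h : Γ, (∃ k, op g h = some k) ↔ ∃ a ∈ comp g, ∃ b ∈ comp h, a * b ≠ 0
  op_spec : ∀ g h k : Γ, op g h = some k → ∀ a ∈ comp g, ∀ b ∈ comp h, a * b ∈ comp k

/-- The grading is a semigroup grading: `(Γ, op)` embeds into a semigroup (of universe `w`). -/
def IsSemigroupGrading {K : Type u} [Field K] {A : Type v} [Ring A] [Algebra K A]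
    {Γ : Type} [DecidableEq Γ] (G : SetGrading K A Γ) : Prop :=
  ∃ (S : Type w) (_ : Semigroup S) (ι : Γ → S), Function.Injective ι ∧
    ∀ g h k : Γ, G.op g h = some k → ι k = ι g * ι h

/-- For every field `K` and every `n ≥ 3` the algebra of `n × n` matrices over `K` has a grading
over a finite set, with all components nonzero and the identity matrix homogeneous, which is
not a semigroup grading. -/
theorem result (K : Type u) [Field K] (n : ℕ) (hn : 3 ≤ n) :
    ∃ (Γ : Type) (_ : Finite Γ) (_ : DecidableEq Γ)
      (G : SetGrading K (Matrix (Fin n) (Fin n) K) Γ),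
      (∀ g, G.comp g ≠ ⊥) ∧ (∃ e, (1 : Matrix (Fin n) (Fin n) K) ∈ G.comp e) ∧
      ¬ IsSemigroupGrading.{u, u, w} G := by
  classical
  let f : Fin n × Fin n → ℕ × ℕ := fun p => Q11.SetGrad.rep p.1 p.2
  let c : Fin n → Fin n → Set.range f := fun i j => ⟨f (i, j), ⟨(i, j), rfl⟩⟩
  have hc : ∀ i j k i' j' k', c i j = c i' j' → c j k = c j' k' → c i k = c i' k' := by
    intro i j k i' j' k' h1 h2
    apply Subtype.ext
    exact Q11.SetGrad.rep_mul _ _ _ _ _ _ (congrArg Subtype.val h1) (congrArg Subtype.val h2)
  let G : SetGrading K (Matrix (Fin n) (Fin n) K) (Set.range f) :=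
    { comp := Q11.SetGrad.comp K c
      isInternal := Q11.SetGrad.internal K c
      op := Q11.SetGrad.op c
      op_defined := Q11.SetGrad.op_defined K c
      op_spec := fun g h k hk a ha b hb => Q11.SetGrad.op_spec K hc g h k hk a ha b hb }
  refine ⟨Set.range f, inferInstance, inferInstance, G, ?_, ?_, ?_⟩
  · rintro ⟨_, ⟨⟨i, j⟩, rfl⟩⟩ h
    have h1 : Matrix.single i j (1 : K) ∈ G.comp (c i j) := Q11.SetGrad.single_mem K c i j 1
    have h2 : Matrix.single i j (1 : K) ∈ (⊥ : Submodule K (Matrix (Fin n) (Fin n) K)) := by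
      rw [← h]; exact h1
    rw [Submodule.mem_bot] at h2
    have h3 := congrFun (congrFun h2 i) j
    simp at h3
  · refine ⟨c ⟨0, by omega⟩ ⟨0, by omega⟩, ?_⟩
    intro i j hij
    apply Matrix.one_apply_ne
    rintro rfl
    apply hij
    apply Subtype.ext
    simp [c, f, Q11.SetGrad.rep]
  · rintro ⟨S, _, ι, hinj, hι⟩
    have e : ∀ i j k, ι (c i k) = ι (c i j) * ι (c j k) := fun i j k =>
      hι _ _ _ (Q11.SetGrad.op_eq hc i j k)
    let x : Fin n := ⟨0, by omega⟩
    let y : Fin n := ⟨1, by omega⟩
    let z : Fin n := ⟨2, by omega⟩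
    have h1 : c y z = c z x := by apply Subtype.ext; rfl
    have h2 : c x y = c y x := by apply Subtype.ext; rfl
    -- `g = c y z`, `g * g = c y x`, `(g * g) * g ∋ e_{02}`, `g * (g * g) ∋ e_{21}`
    have h3 : ι (c y x) = ι (c y z) * ι (c y z) := by
      have h4 := e y z x
      rwa [← h1] at h4
    have h5 : ι (c x z) = ι (c y z) * ι (c y z) * ι (c y z) := by
      have h6 := e x y z
      rw [h2, h3] at h6
      exact h6
    have h7 : ι (c z y) = ι (c y z) * (ι (c y z) * ι (c y z)) := by
      have h8 := e z x y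
      rw [h2, h3, ← h1] at h8
      exact h8
    have h9 : c x z = c z y := hinj (by rw [h5, h7, mul_assoc])
    have h10 : (0, 2) = (2, 1) := congrArg Subtype.val h9
    simp at h10

end Pool.Agent.Results.MP_5a34df_al.NonSemigroupGrading
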